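import Pool.Agent.Helper608.CurveD

/-! The improved flux bound: the torque balance keeps `|H|` away from `L / (2 |D|)` when the
centroids of the curve and of the domain differ. -/

open Set MeasureTheory Filter Topology
open scoped Manifold ContDiff InnerProductSpace

set_option linter.unusedSectionVars false

namespace Pool.Agent.Helper442.CMC

open Pool.Agent.Helper608

variable {M : Type*} [TopologicalSpace M] [ChartedSpace (EuclideanHalfSpace 2) M]
  [IsManifold (𝓡∂ 2) ∞ M]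
  {f N : M → Helper608.E3} {H : ℝ}
  {γ : ℝ → Helper608.E3} {β : ℝ → M}
  [MeasurableSpace M] [BorelSpace M] [CompactSpace M] [T2Space M]

/-- Improved flux bound. -/
theorem bound (P : BdOne f γ β) (h : Helper608.IsCMCImmersion f N H)
    {μ : Measure M} (hμ : IsAreaMeasure f μ) (hz : ∀ t, γ t 2 = 0) {c R : ℝ}
    (hR : ∀ t, |γ t 0 - c| ≤ R)
    (hc : ∫ t in Ico (0:ℝ) 1, γ t 0 ^ 2 / 2 * deriv γ t 1 =
      c * ∫ t in Ico (0:ℝ) 1, γ t 0 * deriv γ t 1) :
    |(∫ t in Ico (0:ℝ) 1, γ t 0 * ‖deriv γ t‖) - c * ∫ t in Ico (0:ℝ) 1, ‖deriv γ t‖| ≤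
      R * ((∫ t in Ico (0:ℝ) 1, ‖deriv γ t‖) -
        |2 * H * ∫ t in Ico (0:ℝ) 1, γ t 0 * deriv γ t 1|) := by
  have h1 := BdOne.flux P h hμ
  have h2 := BdOne.torque P h hμ hz
  set A := ∫ t in Ico (0:ℝ) 1, γ t 0 * deriv γ t 1 with hA
  set B := ∫ t in Ico (0:ℝ) 1, γ t 0 ^ 2 / 2 * deriv γ t 1 with hB
  set L := ∫ t in Ico (0:ℝ) 1, ‖deriv γ t‖ with hLdef
  set w : ℝ → ℝ := fun t => ⟪Helper608.cross ez3 (N (β t)), deriv γ t⟫_ℝ with hw
  have hwabs : ∀ t, |w t| ≤ ‖deriv γ t‖ := fun t => abs_wf_le h t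
  have hdc : Continuous (deriv γ) := P.c.smooth.continuous_deriv (by simp)
  have hwc : Continuous w := by
    have hc : Continuous (fun t => Helper608.cross ez3 (N (β t))) :=
      (crossL ez3).continuous.comp (h.smooth_normal.continuous.comp P.c.cont)
    exact hc.inner hdc
  have hγc : Continuous (fun t => γ t 0) :=
    (pr 0).continuous.comp P.c.smooth.continuous
  obtain ⟨s, hs, hsL⟩ : ∃ s : ℝ, (s = 1 ∨ s = -1) ∧ s * (2 * H * A) = |2 * H * A| := by
    rcases abs_choice (2 * H * A) with e | e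
    · exact ⟨1, Or.inl rfl, by rw [one_mul, e]⟩
    · exact ⟨-1, Or.inr rfl, by rw [neg_one_mul, e]⟩
  have hint : ∀ g : ℝ → ℝ, Continuous g → IntegrableOn g (Ico (0:ℝ) 1) := fun g hg =>
    (hg.integrableOn_Icc).mono_set Ico_subset_Icc_self
  set g : ℝ → ℝ := fun t => ‖deriv γ t‖ + s * w t with hg
  have hgc : Continuous g := hdc.norm.add (continuous_const.mul hwc)
  have hg0 : ∀ t, 0 ≤ g t := by
    intro t
    have := hwabs t
    rw [abs_le] at this
    simp only [hg]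
    rcases hs with rfl | rfl <;> linarith [this.1, this.2]
  have i1 : IntegrableOn (fun t => ‖deriv γ t‖) (Ico (0:ℝ) 1) := hint _ hdc.norm
  have i2 : IntegrableOn (fun t => s * w t) (Ico (0:ℝ) 1) := hint _ (continuous_const.mul hwc)
  have i3 : IntegrableOn (fun t => γ t 0 * ‖deriv γ t‖) (Ico (0:ℝ) 1) :=
    hint _ (hγc.mul hdc.norm)
  have i4 : IntegrableOn (fun t => s * (γ t 0 * w t)) (Ico (0:ℝ) 1) :=
    hint _ (continuous_const.mul (hγc.mul hwc))
  have h1' : ∫ t in Ico (0:ℝ) 1, w t = -(2 * H * A) := h1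
  have h2' : ∫ t in Ico (0:ℝ) 1, γ t 0 * w t = -(2 * H * B) := h2
  have hgi : ∫ t in Ico (0:ℝ) 1, g t = L - |2 * H * A| := by
    simp only [hg]
    rw [integral_add i1 i2, integral_const_mul, h1', ← hLdef, ← hsL]
    ring
  set X := ∫ t in Ico (0:ℝ) 1, γ t 0 * ‖deriv γ t‖ with hX
  have hxg : ∫ t in Ico (0:ℝ) 1, γ t 0 * g t = X - s * (2 * H * B) := by
    have : (fun t => γ t 0 * g t) = fun t => γ t 0 * ‖deriv γ t‖ + s * (γ t 0 * w t) := by
      ext t
      simp only [hg]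
      ring
    rw [this, integral_add i3 i4, integral_const_mul, h2', ← hX]
    ring
  have hcx : ∫ t in Ico (0:ℝ) 1, (γ t 0 - c) * g t = X - c * L := by
    have e : (fun t => (γ t 0 - c) * g t) = fun t => γ t 0 * g t - c * g t := by
      ext t
      ring
    have i5 : IntegrableOn (fun t => γ t 0 * g t) (Ico (0:ℝ) 1) := hint _ (hγc.mul hgc)
    have i6 : IntegrableOn (fun t => c * g t) (Ico (0:ℝ) 1) := hint _ (continuous_const.mul hgc)
    rw [e, integral_sub i5 i6, integral_const_mul, hxg, hgi]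
    have hc' : B = c * A := hc
    rw [hc', ← hsL]
    ring
  rw [← hcx, ← hgi, ← integral_const_mul, ← Real.norm_eq_abs]
  refine (norm_integral_le_integral_norm _).trans ?_
  refine integral_mono (hint _ (((hγc.sub continuous_const).mul hgc).norm))
    (hint _ (continuous_const.mul hgc)) ?_
  intro t
  simp only [Real.norm_eq_abs, abs_mul, abs_of_nonneg (hg0 t)]
  exact mul_le_mul_of_nonneg_right (hR t) (hg0 t)

/-- The improved flux bound for a plane boundary curve. -/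
theorem bound_planar {γ : ℝ → Helper608.E2} (hs : ContDiff ℝ ∞ γ) (hp : Function.Periodic γ 1)
    (hd : ∀ t, deriv γ t ≠ 0) (hi : InjOn γ (Ico 0 1))
    {M : Type*} [TopologicalSpace M] [T2Space M] [CompactSpace M]
    [ChartedSpace (EuclideanHalfSpace 2) M] [IsManifold (𝓡∂ 2) ∞ M]
    {f N : M → Helper608.E3} {H : ℝ} (h : Helper608.IsCMCImmersion f N H)
    (hinj : InjOn f ((𝓡∂ 2).boundary M))
    (hbd : f '' ((𝓡∂ 2).boundary M) = Helper608.inclP '' (range γ)) {c R : ℝ}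
    (hR : ∀ t, |γ t 0 - c| ≤ R)
    (hc : ∫ t in Ico (0:ℝ) 1, γ t 0 ^ 2 / 2 * deriv γ t 1 =
      c * ∫ t in Ico (0:ℝ) 1, γ t 0 * deriv γ t 1) :
    |(∫ t in Ico (0:ℝ) 1, γ t 0 * ‖deriv γ t‖) - c * ∫ t in Ico (0:ℝ) 1, ‖deriv γ t‖| ≤
      R * ((∫ t in Ico (0:ℝ) 1, ‖deriv γ t‖) -
        |2 * H * ∫ t in Ico (0:ℝ) 1, γ t 0 * deriv γ t 1|) := by
  borelize M
  obtain ⟨μ, hμ⟩ := exists_isAreaMeasure f h.smooth_map
  obtain ⟨β, B⟩ := exists_bdCurve h hinj hbd hs hd (fun t => ⟨t, rfl⟩)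
  have P : BdOne f (fun t => Helper608.inclP (γ t)) β := by
    refine ⟨B, fun t ht t' ht' he => hi ht ht' (inclP_injective he), ?_⟩
    intro m hm
    have h3 : f m ∈ Helper608.inclP '' (range γ) := by rw [← hbd]; exact ⟨m, hm, rfl⟩
    obtain ⟨x, ⟨s, rfl⟩, hxf⟩ := h3
    obtain ⟨t, ht, hte⟩ := hp.exists_mem_Ico₀ one_pos s
    refine ⟨t, ht, ?_⟩
    apply hinj (B.mem t) hm
    rw [B.lift, ← hte, hxf]
  have hdiff : Differentiable ℝ γ := hs.differentiable (by simp)
  have e1 : ∀ t, deriv (fun t => Helper608.inclP (γ t)) t = Helper608.inclP (deriv γ t) :=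
    deriv_incl γ hdiff
  have e2 : ∀ t, ‖deriv (fun t => Helper608.inclP (γ t)) t‖ = ‖deriv γ t‖ := fun t => by
    rw [e1, norm_inclP]
  have e3 : ∀ t, deriv (fun t => Helper608.inclP (γ t)) t 1 = deriv γ t 1 := fun t => by
    rw [e1]
    simp [Helper608.inclP]
  have e4 : ∀ t, Helper608.inclP (γ t) 0 = γ t 0 := fun t => by simp [Helper608.inclP]
  have key := bound P h hμ (c := c) (R := R) (fun t => by simp [Helper608.inclP])
  simp only [e2, e3, e4] at key
  exact key hR hc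

theorem abs_gam_sub_le (t : ℝ) : |Egg.gam t 0 - 3030 / 30601| ≤ 2 := by
  rw [Egg.gam_zero]
  have h1 := Real.neg_one_le_cos (2 * Real.pi * t)
  have h2 := Real.cos_le_one (2 * Real.pi * t)
  set c := Real.cos (2 * Real.pi * t)
  have h3 : c ^ 2 ≤ 1 := by nlinarith
  have h4 : 0 ≤ c ^ 2 := sq_nonneg c
  have h5 : c ^ 3 ≤ 1 := by nlinarith
  have h6 : -1 ≤ c ^ 3 := by nlinarith
  rw [abs_le]
  constructor <;> linarith

/-- The constant below which all mean curvatures of surfaces bounded by the egg lie. -/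
noncomputable def h0 : ℝ := (101 / 50 - 1 / 153005) / (30601 / 15000)

theorem egg_bound
    {M : Type*} [TopologicalSpace M] [T2Space M] [CompactSpace M]
    [ChartedSpace (EuclideanHalfSpace 2) M] [IsManifold (𝓡∂ 2) ∞ M]
    {f N : M → Helper608.E3} {H : ℝ} (h : Helper608.IsCMCImmersion f N H)
    (hinj : InjOn f ((𝓡∂ 2).boundary M))
    (hbd : f '' ((𝓡∂ 2).boundary M) = Helper608.inclP '' (range Egg.gam)) :
    |H| ≤ h0 := by
  have hpi := Real.pi_pos
  have key := bound_planar Egg.contDiff_gam Egg.gam_periodic Egg.deriv_gam_ne Egg.gam_inj h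
    hinj hbd abs_gam_sub_le (by rw [Egg.int_B, Egg.int_A]; ring)
  rw [Egg.int_A, Egg.int_L, Egg.int_X, abs_mul, abs_mul, abs_of_pos (by norm_num : (0:ℝ) < 2),
    abs_of_pos (by positivity : (0:ℝ) < 2 * Real.pi * (30601 / 60000))] at key
  have e : 2 * Real.pi * (1 / 10) - 3030 / 30601 * (2 * Real.pi * (101 / 100)) =
      -(Real.pi * (2 / 153005)) := by ring
  rw [e, abs_neg, abs_of_pos (by positivity : (0:ℝ) < Real.pi * (2 / 153005))] at key
  have k2 : Real.pi * (2 / 153005) ≤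
      Real.pi * (2 * (2 * (101 / 100) - 2 * |H| * (2 * (30601 / 60000)))) := by
    refine key.trans (le_of_eq ?_)
    ring
  have k3 := le_of_mul_le_mul_left k2 hpi
  rw [h0, le_div_iff₀ (by norm_num)]
  linarith

theorem h0_lt : h0 < (∫ t in Ico (0:ℝ) 1, ‖deriv Egg.gam t‖) / (2 * (volume Egg.Dom).toReal) := by
  rw [Egg.int_L, Egg.volume_Dom, h0]
  have hpi := Real.pi_pos
  rw [lt_div_iff₀ (by positivity)]
  have : (101 / 50 - 1 / 153005) / (30601 / 15000) * (2 * (Real.pi * (30601 / 30000))) =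
    Real.pi * (101 / 50 - 1 / 153005) := by ring
  rw [this]
  nlinarith

theorem h0_pos : 0 < h0 := by
  rw [h0]; norm_num

end Pool.Agent.Helper442.CMC
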